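import Pool.Agent.Q329.UP.Sym

set_option autoImplicit false
set_option linter.unusedSectionVars false

/-! Two fixed graphs, far from isomorphic, which no small locally symmetric semidefinite program
tells apart, alone or in the presence of a second graph. -/

namespace Pool.Agent.Q329.UP

open Finset Pool.Agent.H550R2.Lift Pool.Agent.H550R2.Cl

theorem univ_pair (ε : ℝ) (hε : 0 < ε) : ∃ C : ℕ, 0 < C ∧ ∀ r : ℕ, C ≤ r →
    ∀ (V : Type) [Finite V] (blk : Fin r → (Fin 4 ↪ V)),
    (Pairwise fun i j => Disjoint (Set.range (blk i)) (Set.range (blk j))) →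
    ∃ G H : SimpleGraph V, FewEdges (C * r) G ∧ FewEdges (C * r) H ∧
      SmallVC H (3 * r) ∧ LargeVC G ((7 / 2 - ε) * r) ∧ FarIso ((1 / 2 - ε) * r) G H ∧
      (∀ (D : Type) [Fintype D] [DecidableEq D] (P : SDP (Sym2 V) D),
        (∀ i, P.SymOn edPerm (blk i)) → Fintype.card D ≤ 2 ^ (r / C) →
        (P.Acc (gvec G) ↔ P.Acc (gvec H))) ∧
      (∀ (D : Type) [Fintype D] [DecidableEq D] (P : SDP (Sym2 (V ⊕ V)) D),
        (∀ i, P.SymOn edPerm (fstB (blk i))) → Fintype.card D ≤ 2 ^ (r / C) →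
        ∀ F : SimpleGraph V, (P.Acc (gvec (G ⊕g F)) ↔ P.Acc (gvec (H ⊕g F)))) := by
  classical
  obtain ⟨C, hC0, hC⟩ := quad_univ ε hε
  refine ⟨16 + 32 * C, by omega, fun r hr V _ blk hd => ?_⟩
  obtain ⟨n, T, c, s, h0, h2, hs, hG⟩ := hC r (by omega)
  have h1 : r / (16 + 32 * C) ≤ r / C := Nat.div_le_div_left (by omega) hC0
  have hfew : ∀ d, FewEdges ((16 + 32 * C : ℕ) * r) (hg (bl blk hd) lam3 g1 s1 T d) := by
    intro d
    have h4 := (hg_edges (bl blk hd) T d).trans
      (Nat.add_le_add_left (Nat.mul_le_mul_left 32 h0) (16 * r))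
    have h5 : 16 * r + 32 * (C * r) = (16 + 32 * C) * r := by ring
    rw [h5] at h4
    unfold FewEdges
    exact_mod_cast h4
  have h6 := small_cover (bl blk hd) T
  have h7 := large_cover (bl blk hd) T c ε hε (by omega) h2
  have h8 : FarIso ((1 / 2 - ε) * r) (hg (bl blk hd) lam3 g1 s1 T c)
      (hg (bl blk hd) lam3 g1 s1 T 0) := by
    have := far_of_vc h6 h7
    intro f
    have h9 := this f
    linarith
  refine ⟨hg (bl blk hd) lam3 g1 s1 T c, hg (bl blk hd) lam3 g1 s1 T 0, hfew c, hfew 0, h6, h7, h8,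
    ?_, ?_⟩
  · intro D _ _ P hP hD
    obtain ⟨k1, k2⟩ := sym_of edPerm edPerm_one edPerm_mul blk hd hP
    have key : ∀ a b, P.Acc (gvec (hg (bl blk hd) lam3 g1 s1 T a)) →
        P.Acc (gvec (hg (bl blk hd) lam3 g1 s1 T b)) := fun a b hab =>
      hG.transfer hs P (fun γ => edPerm (tp (bl blk hd) γ))
        (fun γ γ' => by rw [tp_add, edPerm_mul]) k1 k2
        (hD.trans (Nat.pow_le_pow_right (by norm_num) h1))
        (fun c => (hg (bl blk hd) lam3 g1 s1 T c).edgeSet)
        (fun c y i => hg_sym (bl blk hd) g1_inj s1 T c y i)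
        (hg_local (bl blk hd) lam3 g1 s1 T 2 (by norm_num)) a b hab
    exact ⟨key _ _, key _ _⟩
  · intro D _ _ P hP hD F
    obtain ⟨k1, k2⟩ := sym_of edPerm edPerm_one edPerm_mul (fun i => fstB (blk i))
      (fstB_disj hd) hP
    have hbl : bl (fun i => fstB (blk i)) (fstB_disj hd) = fstBl (bl blk hd) :=
      DFunLike.ext _ _ fun _ => rfl
    rw [hbl] at k1 k2
    have hS1 : ∀ d y i, (edPerm (tp (fstBl (bl blk hd)) (tau g1 s1 y))).symm i ∈
        ((hg (bl blk hd) lam3 g1 s1 T d) ⊕g F).edgeSet ↔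
        i ∈ ((hg (bl blk hd) lam3 g1 s1 T (d + dlt lam3 y)) ⊕g F).edgeSet := by
      intro d y i
      induction i using Sym2.ind with
      | _ u w =>
        rw [edPerm_symm, SimpleGraph.mem_edgeSet, SimpleGraph.mem_edgeSet]
        rcases u with u | u <;> rcases w with w | w
        · rw [tp_inl, tp_inl]
          exact hg_shift (bl blk hd) g1_inj s1 T d y u w
        · rw [tp_inl, tp_inr]; exact Iff.rfl
        · rw [tp_inr, tp_inl]; exact Iff.rfl
        · rw [tp_inr, tp_inr]; exact Iff.rfl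
    have hS2 : Local T 2 fun d => ((hg (bl blk hd) lam3 g1 s1 T d) ⊕g F).edgeSet := by
      intro i
      induction i using Sym2.ind with
      | _ u w =>
        rcases u with u | u <;> rcases w with w | w
        · obtain ⟨Xs, e1, e2⟩ := hg_loc (bl blk hd) lam3 g1 s1 T 2 (by norm_num) u w
          refine ⟨Xs, e1, fun d d' hdd => ?_⟩
          rw [SimpleGraph.mem_edgeSet, SimpleGraph.mem_edgeSet]
          exact e2 d d' hdd
        · exact ⟨∅, Nat.zero_le _, fun d d' _ => Iff.rfl⟩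
        · exact ⟨∅, Nat.zero_le _, fun d d' _ => Iff.rfl⟩
        · exact ⟨∅, Nat.zero_le _, fun d d' _ => Iff.rfl⟩
    have key : ∀ a b, P.Acc (gvec ((hg (bl blk hd) lam3 g1 s1 T a) ⊕g F)) →
        P.Acc (gvec ((hg (bl blk hd) lam3 g1 s1 T b) ⊕g F)) := fun a b hab =>
      hG.transfer hs P (fun γ => edPerm (tp (fstBl (bl blk hd)) γ))
        (fun γ γ' => by rw [tp_add, edPerm_mul]) k1 k2
        (hD.trans (Nat.pow_le_pow_right (by norm_num) h1))
        (fun c => ((hg (bl blk hd) lam3 g1 s1 T c) ⊕g F).edgeSet) hS1 hS2 a b hab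
    exact ⟨key _ _, key _ _⟩

end Pool.Agent.Q329.UP
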