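import Pool.Agent.H550R2.Cl.QuadU
import Pool.Agent.H550R2.Cl.RGI

set_option autoImplicit false
set_option linter.unusedSectionVars false

/-! Quadruples of points as planes over the field with two elements: programs that are symmetric
under the even permutations of the quadruples are symmetric under translations and rotations. -/

namespace Pool.Agent.Q329.UP

open Finset Pool.Agent.H550R2.Lift Pool.Agent.H550R2.Cl

/-- the pair of coordinates -/
def pv (v : Fin 2 → ZMod 2) : V4 := (v 0, v 1)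

theorem pv_inj : Function.Injective pv := by
  intro v w h
  have h1 : v 0 = w 0 := congrArg Prod.fst h
  have h2 : v 1 = w 1 := congrArg Prod.snd h
  funext k
  fin_cases k
  · exact h1
  · exact h2

theorem pv_add (v w : Fin 2 → ZMod 2) : pv (v + w) = pv v + pv w := rfl

theorem pv_rt : ∀ (a : Fin 3) (v : Fin 2 → ZMod 2), pv (rt a v) = mm a (pv v) := by
  unfold rt pv
  decide

variable {V : Type} {r : ℕ}

/-- the blocks, numbered by the plane -/
def bl (blk : Fin r → (Fin 4 ↪ V))
    (hd : Pairwise fun i j => Disjoint (Set.range (blk i)) (Set.range (blk j))) :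
    Fin r × (Fin 2 → ZMod 2) ↪ V where
  toFun := fun x => blkE blk hd (x.1, cd (pv x.2))
  inj' := by
    rintro ⟨i, v⟩ ⟨j, w⟩ h
    have h1 := (blkE blk hd).injective h
    have h2 : i = j := congrArg Prod.fst h1
    have h3 : cd (pv v) = cd (pv w) := congrArg Prod.snd h1
    rw [h2, pv_inj (cd_inj h3)]

theorem bl_apply (blk : Fin r → (Fin 4 ↪ V))
    (hd : Pairwise fun i j => Disjoint (Set.range (blk i)) (Set.range (blk j)))
    (i : Fin r) (v : Fin 2 → ZMod 2) : bl blk hd (i, v) = blkE blk hd (i, cd (pv v)) := rfl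

theorem range_bl (blk : Fin r → (Fin 4 ↪ V))
    (hd : Pairwise fun i j => Disjoint (Set.range (blk i)) (Set.range (blk j))) :
    Set.range (bl blk hd) = Set.range (blkE blk hd) := by
  apply Set.Subset.antisymm
  · rintro _ ⟨⟨i, v⟩, rfl⟩
    exact ⟨(i, cd (pv v)), rfl⟩
  · rintro _ ⟨⟨i, c⟩, rfl⟩
    obtain ⟨l, rfl⟩ := cd_surj c
    refine ⟨(i, ![l.1, l.2]), ?_⟩
    rw [bl_apply]
    rfl

/-- Translations are products of even permutations of the blocks. -/
theorem tp_bl (blk : Fin r → (Fin 4 ↪ V))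
    (hd : Pairwise fun i j => Disjoint (Set.range (blk i)) (Set.range (blk j)))
    (γ : Fin r × Fin 2 → ZMod 2) :
    tp (bl blk hd) γ = bp (blkE blk hd) (fun i => trA (pv fun k => γ (i, k))) := by
  ext v
  by_cases hv : v ∈ Set.range (bl blk hd)
  · obtain ⟨⟨i, u⟩, rfl⟩ := hv
    rw [tp_apply, bl_apply blk hd i u, bp_apply]
    show blkE blk hd (i, cd (pv (u + fun k => γ (i, k)))) =
      blkE blk hd (i, tr (pv fun k => γ (i, k)) (cd (pv u)))
    rw [pv_add, tr_cd]
  · rw [tp_notMem _ _ hv, bp_notMem]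
    rwa [← range_bl]

section aut

variable {I D : Type} [Fintype D] [DecidableEq D] {P : SDP I D}

/-- Even permutations of the blocks give translations and rotations. -/
theorem sym_of (act : Equiv.Perm V → Equiv.Perm I) (h1 : act 1 = 1)
    (hmul : ∀ p q, act (p * q) = act p * act q) (blk : Fin r → (Fin 4 ↪ V))
    (hd : Pairwise fun i j => Disjoint (Set.range (blk i)) (Set.range (blk j)))
    (hsym : ∀ i, P.SymOn act (blk i)) :
    (∀ γ, ∃ O, P.IsAut (act (tp (bl blk hd) γ)) O) ∧
    ∀ e : Fin r → Fin 3, ∃ ρ O, P.IsAut ρ O ∧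
      ∀ γ, act (tp (bl blk hd) γ) * ρ = ρ * act (tp (bl blk hd) (rtB e γ)) := by
  refine ⟨fun γ => ?_, fun e => ?_⟩
  · rw [tp_bl]
    exact sym_all act h1 hmul blk hd hsym _
  · obtain ⟨O, hO⟩ := sym_all act h1 hmul blk hd hsym (fun i => rotA (e i))
    refine ⟨_, O, hO, fun γ => ?_⟩
    rw [tp_bl, tp_bl, ← hmul, ← hmul, ← bp_mul, ← bp_mul]
    congr 2
    funext i
    rw [Pi.mul_apply, Pi.mul_apply, trA_rotA, ← pv_rt]
    rfl

end aut

end Pool.Agent.Q329.UP
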